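import Pool.Agent.T2h8.GG.Stm

set_option autoImplicit false

namespace Pool.Agent.T2h8.GG.KEY35

open Finset

/-- fiberwise sum -/
theorem fib (A I : Finset ℕ) (w : ℕ → ℕ) (hI : ∀ a ∈ A, w a ∈ I) (f : ℕ → ℝ) :
    ∑ a ∈ A, f a = ∑ i ∈ I, ∑ a ∈ A.filter (fun a => w a = i), f a :=
  (sum_fiberwise_of_maps_to hI f).symm

theorem nml (n N : ℝ) (hn : 0 ≤ n) (hN : 0 < N) :
    N * Real.negMulLog (n / N) = n * Real.log N - n * Real.log n := by
  unfold Real.negMulLog
  rcases hn.eq_or_lt with h | h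
  · rw [← h]; simp
  · rw [Real.log_div h.ne' hN.ne']
    field_simp
    ring

/-- the inequality for one prime, multiplied by `N M` -/
theorem one (lam c : ℝ) (h : OneDim lam c) (A B I : Finset ℕ) (w : ℕ → ℕ) (hA : ∀ a ∈ A, w a ∈ I)
    (hB : ∀ b ∈ B, w b ∈ I) (hA0 : A.Nonempty) (hB0 : B.Nonempty) :
    (A.card : ℝ) * B.card * (Real.log A.card + Real.log B.card) ≤
      (B.card : ℝ) * ∑ i ∈ I, ((A.filter (fun a => w a = i)).card : ℝ) *
          Real.log ((A.filter (fun a => w a = i)).card : ℝ) +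
        (A.card : ℝ) * ∑ j ∈ I, ((B.filter (fun b => w b = j)).card : ℝ) *
          Real.log ((B.filter (fun b => w b = j)).card : ℝ) +
        lam * ∑ i ∈ I, ∑ j ∈ I, ((A.filter (fun a => w a = i)).card : ℝ) *
          ((B.filter (fun b => w b = j)).card : ℝ) * |(i : ℝ) - j| + (A.card : ℝ) * B.card * c := by
  obtain ⟨n, hn⟩ : ∃ n : ℕ → ℝ, n = fun i => ((A.filter (fun a => w a = i)).card : ℝ) := ⟨_, rfl⟩
  obtain ⟨m, hm⟩ : ∃ m : ℕ → ℝ, m = fun i => ((B.filter (fun a => w a = i)).card : ℝ) := ⟨_, rfl⟩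
  obtain ⟨N, hN⟩ : ∃ N : ℝ, N = (A.card : ℝ) := ⟨_, rfl⟩
  obtain ⟨K, hK⟩ : ∃ K : ℝ, K = (B.card : ℝ) := ⟨_, rfl⟩
  have hN0 : 0 < N := by rw [hN]; exact_mod_cast hA0.card_pos
  have hK0 : 0 < K := by rw [hK]; exact_mod_cast hB0.card_pos
  have hnn : ∀ i, 0 ≤ n i := fun i => by rw [hn]; positivity
  have hmm : ∀ i, 0 ≤ m i := fun i => by rw [hm]; positivity
  have hsn : ∑ i ∈ I, n i = N := by
    have h1 := fib A I w hA (fun _ => (1 : ℝ))
    rw [hN, hn]
    simpa using h1.symm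
  have hsm : ∑ i ∈ I, m i = K := by
    have h1 := fib B I w hB (fun _ => (1 : ℝ))
    rw [hK, hm]
    simpa using h1.symm
  have h1 := h I (fun i => n i / N) (fun i => m i / K) (fun i => div_nonneg (hnn i) hN0.le)
    (fun i => div_nonneg (hmm i) hK0.le) (by rw [← sum_div, hsn, div_self hN0.ne'])
    (by rw [← sum_div, hsm, div_self hK0.ne'])
  have h2 := mul_le_mul_of_nonneg_left h1 (mul_pos hN0 hK0).le
  have e1 : N * ∑ i ∈ I, Real.negMulLog (n i / N) = N * Real.log N - ∑ i ∈ I, n i * Real.log (n i) := by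
    rw [mul_sum, sum_congr rfl fun i _ => nml (n i) N (hnn i) hN0, sum_sub_distrib, ← sum_mul, hsn]
  have e2 : K * ∑ i ∈ I, Real.negMulLog (m i / K) = K * Real.log K - ∑ i ∈ I, m i * Real.log (m i) := by
    rw [mul_sum, sum_congr rfl fun i _ => nml (m i) K (hmm i) hK0, sum_sub_distrib, ← sum_mul, hsm]
  have e3 : N * K * ∑ i ∈ I, ∑ j ∈ I, n i / N * (m j / K) * |(i : ℝ) - j| =
      ∑ i ∈ I, ∑ j ∈ I, n i * m j * |(i : ℝ) - j| := by
    rw [mul_sum]
    refine sum_congr rfl fun i _ => ?_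
    rw [mul_sum]
    refine sum_congr rfl fun j _ => ?_
    field_simp
  have e4 : N * K * (∑ i ∈ I, Real.negMulLog (n i / N) + ∑ i ∈ I, Real.negMulLog (m i / K)) =
      K * (N * ∑ i ∈ I, Real.negMulLog (n i / N)) + N * (K * ∑ i ∈ I, Real.negMulLog (m i / K)) := by
    ring
  have e5 : N * K * (lam * ∑ i ∈ I, ∑ j ∈ I, n i / N * (m j / K) * |(i : ℝ) - j| + c) =
      lam * (N * K * ∑ i ∈ I, ∑ j ∈ I, n i / N * (m j / K) * |(i : ℝ) - j|) + N * K * c := by ring
  rw [e4, e1, e2, e5, e3] at h2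
  have g1 : ∀ i, ((A.filter (fun a => w a = i)).card : ℝ) = n i := fun i => by rw [hn]
  have g2 : ∀ i, ((B.filter (fun a => w a = i)).card : ℝ) = m i := fun i => by rw [hm]
  simp only [g1, g2, ← hN, ← hK]
  linarith

theorem dbl (A B I : Finset ℕ) (w : ℕ → ℕ) (hA : ∀ a ∈ A, w a ∈ I) (hB : ∀ b ∈ B, w b ∈ I) :
    ∑ a ∈ A, ∑ b ∈ B, |(w a : ℝ) - w b| = ∑ i ∈ I, ∑ j ∈ I, ((A.filter (fun a => w a = i)).card : ℝ) *
          ((B.filter (fun b => w b = j)).card : ℝ) * |(i : ℝ) - j| := by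
  rw [fib A I w hA]
  refine sum_congr rfl fun i _ => ?_
  have h1 : ∀ a ∈ A.filter (fun a => w a = i), ∑ b ∈ B, |(w a : ℝ) - w b| =
      ∑ j ∈ I, ((B.filter (fun b => w b = j)).card : ℝ) * |(i : ℝ) - j| := by
    intro a ha
    rw [(mem_filter.1 ha).2, fib B I w hB]
    refine sum_congr rfl fun j _ => ?_
    rw [sum_congr rfl fun b hb => by rw [(mem_filter.1 hb).2], sum_const, nsmul_eq_mul]
  rw [sum_congr rfl h1, sum_const, nsmul_eq_mul, mul_sum]
  refine sum_congr rfl fun j _ => ?_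
  ring

/-- splitting a double sum -/
theorem split (A B I : Finset ℕ) (w : ℕ → ℕ) (hA : ∀ a ∈ A, w a ∈ I) (hB : ∀ b ∈ B, w b ∈ I)
    (f : ℕ → ℕ → ℝ) : ∑ a ∈ A, ∑ b ∈ B, f a b =
    ∑ i ∈ I, ∑ j ∈ I, ∑ a ∈ A.filter (fun a => w a = i), ∑ b ∈ B.filter (fun b => w b = j), f a b := by
  rw [fib A I w hA]
  refine sum_congr rfl fun i _ => ?_
  rw [sum_comm]
  rw [fib B I w hB]
  refine sum_congr rfl fun j _ => ?_
  rw [sum_comm]

theorem t_KEY : S_KEY := by
  intro S
  classical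
  induction S using Finset.induction_on with
  | empty =>
    intro v lam c _ A B hA hB
    have h1 : A.card ≤ 1 := card_le_one.2 fun a ha a' ha' => hA a ha a' ha' (by simp)
    have h2 : B.card ≤ 1 := card_le_one.2 fun a ha a' ha' => hB a ha a' ha' (by simp)
    have h3 : Real.log (A.card : ℝ) = 0 := by interval_cases A.card <;> simp
    have h4 : Real.log (B.card : ℝ) = 0 := by interval_cases B.card <;> simp
    rw [h3, h4]
    simp
  | insert p S hp ih =>
    intro v lam c hc A B hA hB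
    rcases A.eq_empty_or_nonempty with rfl | hA0
    · simp
    rcases B.eq_empty_or_nonempty with rfl | hB0
    · simp
    obtain ⟨I, hI⟩ : ∃ I : Finset ℕ, I = (A ∪ B).image (v p) := ⟨_, rfl⟩
    have hAI : ∀ a ∈ A, v p a ∈ I := fun a ha => by
      rw [hI]; exact mem_image_of_mem _ (mem_union_left _ ha)
    have hBI : ∀ a ∈ B, v p a ∈ I := fun a ha => by
      rw [hI]; exact mem_image_of_mem _ (mem_union_right _ ha)
    have h1 := one (lam p) (c p) (hc p (mem_insert_self _ _)) A B I (v p) hAI hBI hA0 hB0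
    rw [← dbl A B I (v p) hAI hBI] at h1
    have h2 : ∀ i ∈ I, ∀ j ∈ I, _ := fun i _ j _ => ih v lam c
      (fun q hq => hc q (mem_insert_of_mem hq)) (A.filter (fun a => v p a = i))
      (B.filter (fun a => v p a = j))
      (fun a ha a' ha' h => hA a (mem_filter.1 ha).1 a' (mem_filter.1 ha').1 fun q hq => by
        rcases mem_insert.1 hq with rfl | hq
        · rw [(mem_filter.1 ha).2, (mem_filter.1 ha').2]
        · exact h q hq)
      (fun a ha a' ha' h => hB a (mem_filter.1 ha).1 a' (mem_filter.1 ha').1 fun q hq => by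
        rcases mem_insert.1 hq with rfl | hq
        · rw [(mem_filter.1 ha).2, (mem_filter.1 ha').2]
        · exact h q hq)
    have h3 := sum_le_sum fun i hi => sum_le_sum fun j hj => h2 i hi j hj
    have hsA : ∑ i ∈ I, ((A.filter (fun a => v p a = i)).card : ℝ) = A.card := by
      have h1 := fib A I (v p) hAI (fun _ => (1 : ℝ))
      simpa using h1.symm
    have hsB : ∑ i ∈ I, ((B.filter (fun a => v p a = i)).card : ℝ) = B.card := by
      have h1 := fib B I (v p) hBI (fun _ => (1 : ℝ))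
      simpa using h1.symm
    have e1 : ∑ i ∈ I, ∑ j ∈ I, ((A.filter (fun a => v p a = i)).card : ℝ) *
        ((B.filter (fun a => v p a = j)).card : ℝ) *
        (Real.log ((A.filter (fun a => v p a = i)).card : ℝ) +
          Real.log ((B.filter (fun a => v p a = j)).card : ℝ)) =
        (B.card : ℝ) * ∑ i ∈ I, ((A.filter (fun a => v p a = i)).card : ℝ) *
          Real.log ((A.filter (fun a => v p a = i)).card : ℝ) +
        (A.card : ℝ) * ∑ j ∈ I, ((B.filter (fun b => v p b = j)).card : ℝ) *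
          Real.log ((B.filter (fun b => v p b = j)).card : ℝ) := by
      rw [← hsA, ← hsB, sum_mul_sum, sum_mul_sum]
      rw [sum_comm (s := I) (t := I) (f := fun i j => ((B.filter (fun a => v p a = i)).card : ℝ) * _),
        ← sum_add_distrib]
      refine sum_congr rfl fun i _ => ?_
      rw [← sum_add_distrib]
      refine sum_congr rfl fun j _ => ?_
      ring
    have e2 : ∑ i ∈ I, ∑ j ∈ I, (∑ a ∈ A.filter (fun a => v p a = i),
        ∑ b ∈ B.filter (fun a => v p a = j), ∑ q ∈ S, lam q * |(v q a : ℝ) - v q b| +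
        ((A.filter (fun a => v p a = i)).card : ℝ) *
        ((B.filter (fun a => v p a = j)).card : ℝ) * ∑ q ∈ S, c q) =
        ∑ a ∈ A, ∑ b ∈ B, ∑ q ∈ S, lam q * |(v q a : ℝ) - v q b| +
          (A.card : ℝ) * B.card * ∑ q ∈ S, c q := by
      rw [split A B I (v p) hAI hBI, ← hsA, ← hsB, sum_mul_sum, sum_mul, ← sum_add_distrib]
      refine sum_congr rfl fun i _ => ?_
      rw [sum_mul, ← sum_add_distrib]
    rw [e1, e2] at h3
    have e3 : ∑ a ∈ A, ∑ b ∈ B, ∑ q ∈ insert p S, lam q * |(v q a : ℝ) - v q b| =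
        lam p * ∑ a ∈ A, ∑ b ∈ B, |(v p a : ℝ) - v p b| +
          ∑ a ∈ A, ∑ b ∈ B, ∑ q ∈ S, lam q * |(v q a : ℝ) - v q b| := by
      rw [mul_sum, ← sum_add_distrib]
      refine sum_congr rfl fun a _ => ?_
      rw [mul_sum, ← sum_add_distrib]
      refine sum_congr rfl fun b _ => ?_
      rw [sum_insert hp]
    rw [e3, sum_insert hp]
    linarith

end Pool.Agent.T2h8.GG.KEY35
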