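import Mathlib

/-!
# A two-set version of Graham's gcd inequality up to logarithms: statements (project GG, helper8)
-/

set_option autoImplicit false

namespace Pool.Agent.T2h8.GG

open Finset

/-- the one-dimensional inequality with the weight `lam` and the constant `c`. -/
def OneDim (lam c : ℝ) : Prop :=
  ∀ (I : Finset ℕ) (x y : ℕ → ℝ), (∀ i, 0 ≤ x i) → (∀ i, 0 ≤ y i) →
    ∑ i ∈ I, x i = 1 → ∑ i ∈ I, y i = 1 →
    ∑ i ∈ I, Real.negMulLog (x i) + ∑ i ∈ I, Real.negMulLog (y i) ≤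
      lam * ∑ i ∈ I, ∑ j ∈ I, x i * y j * |(i : ℝ) - j| + c

/-- the constant of the prime `p`. -/
noncomputable def cp (p : ℕ) : ℝ := 5 / ((p : ℝ) - 1) + if p < 2 ^ 24 then 10 else 0

/-- (GIB) Gibbs' inequality. Proof: let `Z = ∑ exp(-w i) > 0` (`I` is nonempty as `∑ x = 1`).
Termwise `negMulLog (x i) - x i * w i - x i * log Z ≤ exp(-w i)/Z - x i`: for `x i = 0` clear, for
`x i > 0` it is `x i * log t ≤ x i * (t - 1)` with `t = exp(-w i)/(x i * Z)`. Sum: the right side is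
`1 - 1 = 0`. -/
def S_GIB : Prop :=
  ∀ (I : Finset ℕ) (x w : ℕ → ℝ), (∀ i, 0 ≤ x i) → ∑ i ∈ I, x i = 1 →
    ∑ i ∈ I, Real.negMulLog (x i) ≤
      ∑ i ∈ I, x i * w i + Real.log (∑ i ∈ I, Real.exp (-(w i)))

/-- (GEO) Proof: with `t = exp(-L) < 1` split into `i > m` and `i < m`; each part is
`∑ t^k` over distinct `k ≥ 1`, so at most `t/(1-t)` (compare with `∑' k, t^(k+1)`, or with a
geometric sum over `range`). -/
def S_GEO : Prop :=
  ∀ (I : Finset ℕ) (m : ℕ) (L : ℝ), 0 < L →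
    ∑ i ∈ I.filter (fun i => i ≠ m), Real.exp (-(L * |(i : ℝ) - m|)) ≤
      2 * Real.exp (-L) / (1 - Real.exp (-L))

/-- (ONEA) Proof: let `D` be the double sum, `t = exp(-L)`. Choose `m ∈ I` with `∑ x i |i-m|`
minimal; as `D = ∑_j y_j (∑_i x_i |i-j|)`, this minimum is at most `D`. GIB with `w i = L |i-m|` and
GEO (plus the term `i = m`, which is at most 1) give
`∑ negMulLog (x i) ≤ L D + log (1 + 2t/(1-t)) ≤ L D + 2t/(1-t)`. The same for `y`. -/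
def S_ONEA : Prop :=
  ∀ (L : ℝ), 0 < L → OneDim (2 * L) (4 * Real.exp (-L) / (1 - Real.exp (-L)))

/-- (ONEB) Here `d = ∑_j y_j |m-j|`, `t = exp(-L)`. Proof: GIB for `y` with `w j = L |j-m|`:
`∑ negMulLog (y j) ≤ L d + log (1 + 2t/(1-t)) ≤ L d + 2t/(1-t)`. GIB for `x` with `w i = L * g i`,
`g i = ∑_j y_j |i-j|`: here `∑ x i * w i = L * D`, `g m = d` and `g i ≥ |i-m| - d` (as `∑ y = 1`), so
`∑_i exp(-w i) ≤ exp(-L d) + exp(L d) * 2t/(1-t) = exp(-L d) (1 + exp(2 L d) 2t/(1-t))`, with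
logarithm at most `-L d + exp(2 L d) * 2t/(1-t)`. Add. -/
def S_ONEB : Prop :=
  ∀ (L : ℝ), 0 < L → ∀ (I : Finset ℕ) (x y : ℕ → ℝ) (m : ℕ), (∀ i, 0 ≤ x i) → (∀ i, 0 ≤ y i) →
    ∑ i ∈ I, x i = 1 → ∑ i ∈ I, y i = 1 →
    ∑ i ∈ I, Real.negMulLog (x i) + ∑ i ∈ I, Real.negMulLog (y i) ≤
      L * ∑ i ∈ I, ∑ j ∈ I, x i * y j * |(i : ℝ) - j| +
        2 * Real.exp (-L) / (1 - Real.exp (-L)) *
          (1 + Real.exp (2 * L * ∑ j ∈ I, y j * |(m : ℝ) - j|))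

/-- (ONE) Proof: let `p ≥ 2`, `lam = log p`, `D` the double sum (`≥ 0`).
If `p < 2^24`: ONEA with `L = lam/2`, `exp(-L) = p^(-1/2) ≤ 0.7072`, `4t/(1-t) ≤ 10`.
If `p ≥ 2^24`: choose `m ∈ I` with `d = ∑_j y_j |m-j|` minimal, so `d ≤ D`
(`D = ∑_i x_i ∑_j y_j |i-j|`). If `exp(2 lam d) ≤ 3/2`: ONEB with `L = lam`, `t = 1/p`,
`2t/(1-t) = 2/(p-1)`, total constant `5/(p-1)`. Otherwise `2 lam D ≥ 2 lam d > log(3/2) > 0.4`, and
ONEA with `L = lam/4`, `t = p^(-1/4) ≤ 1/64`, `4t/(1-t) ≤ 4/63 < 0.1 ≤ lam D/2`: total at most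
`lam D`. -/
def S_ONE : Prop := ∀ p : ℕ, 2 ≤ p → OneDim (Real.log p) (cp p)

/-- (KEY) Proof by induction on `S` (for all `A`, `B`, also allow empty ones: both sides are `0`).
`S = ∅`: the conditions give `#A, #B ≤ 1`, the left side is `0`. Step `insert p S`: let `N = #A`,
`M = #B` be positive, `A_i = A.filter (v p · = i)`, `n_i = #A_i`, `B_j`, `m_j` alike, `I` the image of
`A ∪ B` under `v p`. The induction hypothesis for `(A_i, B_j)` (they satisfy the conditions for `S`)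
summed over `i, j ∈ I`:
`M ∑ n_i log n_i + N ∑ m_j log m_j ≤ T_S(A,B) + N M ∑_{S} c`, and the hypothesis `OneDim` for
`x_i = n_i/N`, `y_j = m_j/M` multiplied by `N M` (with `∑ negMulLog (n_i/N) = log N - (∑ n_i log n_i)/N`)
gives `N M (log N + log M) - M ∑ n_i log n_i - N ∑ m_j log m_j ≤ lam p * ∑ n_i m_j |i-j| + N M c p`.
Add; the double sum for `p` over `A × B` is `∑ n_i m_j |i-j|`. -/
def S_KEY : Prop :=
  ∀ (S : Finset ℕ) (v : ℕ → ℕ → ℕ) (lam c : ℕ → ℝ), (∀ p ∈ S, OneDim (lam p) (c p)) →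
    ∀ A B : Finset ℕ,
      (∀ a ∈ A, ∀ a' ∈ A, (∀ p ∈ S, v p a = v p a') → a = a') →
      (∀ b ∈ B, ∀ b' ∈ B, (∀ p ∈ S, v p b = v p b') → b = b') →
      (A.card : ℝ) * B.card * (Real.log A.card + Real.log B.card) ≤
        ∑ a ∈ A, ∑ b ∈ B, ∑ p ∈ S, lam p * |(v p a : ℝ) - v p b| +
          (A.card : ℝ) * B.card * ∑ p ∈ S, c p

/-- (VAL) Proof: let `g = gcd a b`, `v_p(a/g) = v_p(a) - min`, and `p^(v_p(a/g)) ∣ a/g ≤ M < p` forces
`v_p(a/g) = 0`; the same for `b`, hence `v_p(a) = min = v_p(b)`. -/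
def S_VAL : Prop :=
  ∀ (a b M p : ℕ), 0 < a → 0 < b → a / Nat.gcd a b ≤ M → b / Nat.gcd a b ≤ M → p.Prime → M < p →
    a.factorization p = b.factorization p

/-- (LOG) Proof: `g = gcd a b`, `a = g a'`, `b = g b'` with `a'`, `b'` coprime;
`v_p(a) - v_p(b) = v_p(a') - v_p(b')` and at most one of `v_p(a')`, `v_p(b')` is nonzero (or just use
`|v_p(a') - v_p(b')| ≤ v_p(a') + v_p(b')`), and `∑_{p ≤ M} log p * v_p(a') ≤ log a' ≤ log M`
(`∏_{p} p^(v_p(a')) ∣ a'`). -/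
def S_LOG : Prop :=
  ∀ (a b M : ℕ), 0 < a → 0 < b → a / Nat.gcd a b ≤ M → b / Nat.gcd a b ≤ M →
    ∑ p ∈ (Finset.Icc 1 M).filter Nat.Prime,
      Real.log p * |(a.factorization p : ℝ) - b.factorization p| ≤ 2 * Real.log M

/-- (SUM) Proof: `5/(p-1) = 5/p + 5/(p(p-1))`, `∑ 1/(p(p-1)) ≤ 1` (telescoping), the indicator part
contributes at most `10 * 2^24`, and `∑_{p ≤ M} 1/p ≤ log log M + C` for `M ≥ 3` by
`Pool.Agent.Erdos456.Mert.mertens_inv` (on main, `import Pool.Agent.Erdos456.Mertens`); monotone in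
`M` (apply it to `M + 2`). -/
def S_SUM : Prop :=
  ∃ C : ℝ, ∀ M : ℕ, ∑ p ∈ (Finset.Icc 1 M).filter Nat.Prime, cp p ≤
    5 * Real.log (Real.log ((M : ℝ) + 2)) + C

/-- (MAIN) Proof: if `A` or `B` is empty clear (`C ≥ 0`). Otherwise KEY with
`S` = primes up to `M`, `v p a = a.factorization p`, `lam = log`, `c = cp` (ONE); the injectivity
conditions by VAL (for `a, a' ∈ A` and a prime `p > M` compare with one `b ∈ B`); LOG bounds the double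
sum by `#A #B 2 log M`; divide by `#A #B`, use SUM and exponentiate. -/
def S_MAIN : Prop :=
  ∃ C : ℝ, 0 ≤ C ∧ ∀ (A B : Finset ℕ), (∀ a ∈ A, 0 < a) → (∀ b ∈ B, 0 < b) →
    ∀ M : ℕ, (∀ a ∈ A, ∀ b ∈ B, a / Nat.gcd a b ≤ M ∧ b / Nat.gcd a b ≤ M) →
      (A.card : ℝ) * B.card ≤ C * (M : ℝ) ^ 2 * Real.log ((M : ℝ) + 2) ^ 5

end Pool.Agent.T2h8.GG
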