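import Pool.Agent.T2h8.GG.Stm

set_option autoImplicit false

namespace Pool.Agent.T2h8.GG

open Finset

namespace GEO

theorem geo {t : ℝ} (h0 : 0 ≤ t) (h1 : t < 1) (J : Finset ℕ) (e : ℕ → ℕ)
    (he : ∀ a ∈ J, ∀ b ∈ J, e a = e b → a = b) : ∑ i ∈ J, t ^ (e i + 1) ≤ t / (1 - t) := by
  have h2 : ∑ i ∈ J, t ^ (e i + 1) = ∑ k ∈ J.image e, t ^ (k + 1) := by
    rw [Finset.sum_image]
    intro a ha b hb hab
    exact he a ha b hb hab
  rw [h2]
  have h3 : HasSum (fun k : ℕ => t ^ (k + 1)) (t / (1 - t)) := by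
    have h4 := (hasSum_geometric_of_lt_one h0 h1).mul_left t
    rw [div_eq_mul_inv]
    refine h4.congr_fun ?_ |>.trans ?_ <;> first | exact fun k => by rw [pow_succ]; ring | rfl
  exact sum_le_hasSum _ (fun k _ => pow_nonneg h0 _) h3

end GEO

theorem t_GEO : S_GEO := by
  intro I m L hL
  have ht0 : 0 < Real.exp (-L) := Real.exp_pos _
  have ht1 : Real.exp (-L) < 1 := by
    rw [Real.exp_lt_one_iff]
    linarith
  have hsplit : I.filter (fun i => i ≠ m) = I.filter (fun i => m < i) ∪ I.filter (fun i => i < m) := by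
    ext i
    simp only [mem_filter, mem_union]
    constructor
    · rintro ⟨h1, h2⟩
      rcases Nat.lt_or_gt_of_ne h2 with h | h
      · exact Or.inr ⟨h1, h⟩
      · exact Or.inl ⟨h1, h⟩
    · rintro (⟨h1, h2⟩ | ⟨h1, h2⟩)
      · exact ⟨h1, by omega⟩
      · exact ⟨h1, by omega⟩
  have hdis : Disjoint (I.filter (fun i => m < i)) (I.filter (fun i => i < m)) := by
    rw [Finset.disjoint_left]
    intro i h1 h2
    rw [mem_filter] at h1 h2
    omega
  rw [hsplit, Finset.sum_union hdis]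
  have e1 : ∑ i ∈ I.filter (fun i => m < i), Real.exp (-(L * |(i : ℝ) - m|)) =
      ∑ i ∈ I.filter (fun i => m < i), Real.exp (-L) ^ ((i - m - 1) + 1) := by
    refine Finset.sum_congr rfl fun i hi => ?_
    rw [mem_filter] at hi
    rw [← Real.exp_nat_mul]
    congr 1
    have h1 : i - m - 1 + 1 = i - m := by omega
    rw [h1, Nat.cast_sub hi.2.le, abs_of_nonneg (by
      have : (m : ℝ) ≤ i := by exact_mod_cast hi.2.le
      linarith)]
    ring
  have e2 : ∑ i ∈ I.filter (fun i => i < m), Real.exp (-(L * |(i : ℝ) - m|)) =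
      ∑ i ∈ I.filter (fun i => i < m), Real.exp (-L) ^ ((m - i - 1) + 1) := by
    refine Finset.sum_congr rfl fun i hi => ?_
    rw [mem_filter] at hi
    rw [← Real.exp_nat_mul]
    congr 1
    have h1 : m - i - 1 + 1 = m - i := by omega
    rw [h1, Nat.cast_sub hi.2.le, abs_of_nonpos (by
      have : (i : ℝ) ≤ m := by exact_mod_cast hi.2.le
      linarith)]
    ring
  rw [e1, e2]
  have g1 := GEO.geo ht0.le ht1 (I.filter (fun i => m < i)) (fun i => i - m - 1) (by
    intro a ha b hb hab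
    rw [mem_filter] at ha hb
    have hab' : a - m - 1 = b - m - 1 := hab
    omega)
  have g2 := GEO.geo ht0.le ht1 (I.filter (fun i => i < m)) (fun i => m - i - 1) (by
    intro a ha b hb hab
    rw [mem_filter] at ha hb
    have hab' : m - a - 1 = m - b - 1 := hab
    omega)
  have e3 : 2 * Real.exp (-L) / (1 - Real.exp (-L)) = Real.exp (-L) / (1 - Real.exp (-L)) +
      Real.exp (-L) / (1 - Real.exp (-L)) := by ring
  rw [e3]
  exact add_le_add g1 g2

end Pool.Agent.T2h8.GG
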