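import Pool.Agent.T2h8.GG.Stm

/-! Task KEY (helper66): the tensor induction. -/

set_option autoImplicit false

namespace Pool.Agent.T2h8.GG

open Finset

namespace KEY

theorem two (A B : Finset ℕ) (w : ℕ → ℕ) (I : Finset ℕ) (hA : ∀ a ∈ A, w a ∈ I)
    (hB : ∀ b ∈ B, w b ∈ I) (F : ℕ → ℕ → ℝ) :
    ∑ a ∈ A, ∑ b ∈ B, F a b = ∑ i ∈ I, ∑ j ∈ I, ∑ a ∈ A.filter (fun a => w a = i),
      ∑ b ∈ B.filter (fun b => w b = j), F a b := by
  rw [← Finset.sum_fiberwise_of_maps_to hA (fun a => ∑ b ∈ B, F a b)]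
  refine sum_congr rfl fun i _ => ?_
  have h : ∑ j ∈ I, ∑ a ∈ A.filter (fun a => w a = i), ∑ b ∈ B.filter (fun b => w b = j), F a b =
      ∑ a ∈ A.filter (fun a => w a = i), ∑ j ∈ I, ∑ b ∈ B.filter (fun b => w b = j), F a b :=
    Finset.sum_comm
  rw [h]
  refine sum_congr rfl fun a _ => ?_
  exact (Finset.sum_fiberwise_of_maps_to hB (fun b => F a b)).symm

theorem ent (n N : ℝ) (hn : 0 ≤ n) (hN : 0 < N) :
    N * Real.negMulLog (n / N) = n * Real.log N - n * Real.log n := by
  rcases hn.eq_or_lt with h | h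
  · rw [← h]
    simp
  · rw [Real.negMulLog, Real.log_div h.ne' hN.ne']
    field_simp
    ring

end KEY

theorem t_KEY : S_KEY := by
  classical
  intro S v lam c
  induction S using Finset.induction_on with
  | empty =>
    intro _ A B hA hB
    have hA1 : A.card ≤ 1 := Finset.card_le_one.2 fun a ha a' ha' => hA a ha a' ha' (by simp)
    have hB1 : B.card ≤ 1 := Finset.card_le_one.2 fun a ha a' ha' => hB a ha a' ha' (by simp)
    have h1 : Real.log (A.card : ℝ) = 0 := by
      rcases Nat.le_one_iff_eq_zero_or_eq_one.1 hA1 with h | h <;> simp [h]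
    have h2 : Real.log (B.card : ℝ) = 0 := by
      rcases Nat.le_one_iff_eq_zero_or_eq_one.1 hB1 with h | h <;> simp [h]
    rw [h1, h2]
    simp
  | insert p S hp ih =>
    intro h1 A B hA hB
    rcases A.eq_empty_or_nonempty with hA0 | hA0
    · subst hA0
      simp
    rcases B.eq_empty_or_nonempty with hB0 | hB0
    · subst hB0
      simp
    obtain ⟨N, hN⟩ : ∃ N : ℝ, N = A.card := ⟨_, rfl⟩
    obtain ⟨M, hM⟩ : ∃ M : ℝ, M = B.card := ⟨_, rfl⟩
    have hN0 : 0 < N := by
      rw [hN]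
      exact_mod_cast hA0.card_pos
    have hM0 : 0 < M := by
      rw [hM]
      exact_mod_cast hB0.card_pos
    obtain ⟨I, hI'⟩ : ∃ I : Finset ℕ, I = (A ∪ B).image (v p) := ⟨_, rfl⟩
    have hAI : ∀ a ∈ A, v p a ∈ I := fun a ha => by
      rw [hI']
      exact mem_image_of_mem _ (mem_union_left _ ha)
    have hBI : ∀ b ∈ B, v p b ∈ I := fun b hb => by
      rw [hI']
      exact mem_image_of_mem _ (mem_union_right _ hb)
    obtain ⟨n, hn'⟩ : ∃ n : ℕ → ℝ, ∀ i, n i = ((A.filter (fun a => v p a = i)).card : ℝ) :=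
      ⟨_, fun _ => rfl⟩
    obtain ⟨m, hm'⟩ : ∃ m : ℕ → ℝ, ∀ j, m j = ((B.filter (fun b => v p b = j)).card : ℝ) :=
      ⟨_, fun _ => rfl⟩
    have hn0 : ∀ i, 0 ≤ n i := fun i => by
      rw [hn']
      exact Nat.cast_nonneg _
    have hm0 : ∀ i, 0 ≤ m i := fun i => by
      rw [hm']
      exact Nat.cast_nonneg _
    have hn : ∑ i ∈ I, n i = N := by
      have h := Finset.sum_fiberwise_of_maps_to hAI (fun _ => (1 : ℝ))
      simp only [sum_const, nsmul_eq_mul, mul_one] at h
      rw [hN, ← h]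
      exact sum_congr rfl fun i _ => hn' i
    have hm : ∑ i ∈ I, m i = M := by
      have h := Finset.sum_fiberwise_of_maps_to hBI (fun _ => (1 : ℝ))
      simp only [sum_const, nsmul_eq_mul, mul_one] at h
      rw [hM, ← h]
      exact sum_congr rfl fun i _ => hm' i
    have hG : ∀ G : ℕ → ℕ → ℝ, ∑ a ∈ A, ∑ b ∈ B, G (v p a) (v p b) =
        ∑ i ∈ I, ∑ j ∈ I, n i * m j * G i j := by
      intro G
      rw [KEY.two A B (v p) I hAI hBI]
      refine sum_congr rfl fun i _ => sum_congr rfl fun j _ => ?_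
      have h : ∑ a ∈ A.filter (fun a => v p a = i), ∑ b ∈ B.filter (fun b => v p b = j),
          G (v p a) (v p b) = ∑ a ∈ A.filter (fun a => v p a = i),
          ∑ b ∈ B.filter (fun b => v p b = j), G i j :=
        sum_congr rfl fun a ha => sum_congr rfl fun b hb => by
          rw [(mem_filter.1 ha).2, (mem_filter.1 hb).2]
      rw [h]
      simp only [sum_const, nsmul_eq_mul]
      rw [hn', hm']
      ring
    obtain ⟨Cs, hCs⟩ : ∃ Cs : ℝ, Cs = ∑ q ∈ S, c q := ⟨_, rfl⟩
    have hI : ∀ i ∈ I, ∀ j ∈ I, n i * m j * (Real.log (n i) + Real.log (m j)) ≤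
        ∑ a ∈ A.filter (fun a => v p a = i), ∑ b ∈ B.filter (fun b => v p b = j),
          ∑ q ∈ S, lam q * |(v q a : ℝ) - v q b| + n i * m j * Cs := by
      intro i _ j _
      rw [hn' i, hm' j, hCs]
      refine ih (fun q hq => h1 q (mem_insert_of_mem hq)) _ _ ?_ ?_
      · intro a ha a' ha' h
        rw [mem_filter] at ha ha'
        refine hA a ha.1 a' ha'.1 fun q hq => ?_
        rcases mem_insert.1 hq with h2 | hq
        · rw [h2]
          exact ha.2.trans ha'.2.symm
        · exact h q hq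
      · intro a ha a' ha' h
        rw [mem_filter] at ha ha'
        refine hB a ha.1 a' ha'.1 fun q hq => ?_
        rcases mem_insert.1 hq with h2 | hq
        · rw [h2]
          exact ha.2.trans ha'.2.symm
        · exact h q hq
    have hsum := Finset.sum_le_sum fun i hi => Finset.sum_le_sum fun j hj => hI i hi j hj
    have e1 : ∑ i ∈ I, ∑ j ∈ I, n i * m j * (Real.log (n i) + Real.log (m j)) =
        M * ∑ i ∈ I, n i * Real.log (n i) + N * ∑ j ∈ I, m j * Real.log (m j) := by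
      have h : ∀ i ∈ I, ∑ j ∈ I, n i * m j * (Real.log (n i) + Real.log (m j)) =
          (n i * Real.log (n i)) * M + n i * ∑ j ∈ I, m j * Real.log (m j) := by
        intro i _
        rw [← hm, mul_sum, mul_sum, ← sum_add_distrib]
        exact sum_congr rfl fun j _ => by ring
      rw [sum_congr rfl h, sum_add_distrib, ← sum_mul, ← sum_mul, hn]
      ring
    have e3 : ∑ i ∈ I, ∑ j ∈ I, n i * m j * Cs = N * M * Cs := by
      have h : ∀ i ∈ I, ∑ j ∈ I, n i * m j * Cs = n i * (M * Cs) := by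
        intro i _
        rw [← sum_mul, ← mul_sum, hm]
        ring
      rw [sum_congr rfl h, ← sum_mul, hn]
      ring
    have e2 : ∑ i ∈ I, ∑ j ∈ I, (∑ a ∈ A.filter (fun a => v p a = i),
        ∑ b ∈ B.filter (fun b => v p b = j), ∑ q ∈ S, lam q * |(v q a : ℝ) - v q b| +
        n i * m j * Cs) =
        ∑ a ∈ A, ∑ b ∈ B, ∑ q ∈ S, lam q * |(v q a : ℝ) - v q b| + N * M * Cs := by
      rw [← e3, KEY.two A B (v p) I hAI hBI
        (fun a b => ∑ q ∈ S, lam q * |(v q a : ℝ) - v q b|), ← sum_add_distrib]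
      exact sum_congr rfl fun i _ => sum_add_distrib
    rw [e1, e2] at hsum
    have h2 := h1 p (mem_insert_self p S) I (fun i => n i / N) (fun j => m j / M)
      (fun i => div_nonneg (hn0 i) hN0.le) (fun j => div_nonneg (hm0 j) hM0.le)
      (by rw [← sum_div, hn, div_self hN0.ne']) (by rw [← sum_div, hm, div_self hM0.ne'])
    have h3 := mul_le_mul_of_nonneg_left h2 (mul_pos hN0 hM0).le
    have e4 : N * M * (∑ i ∈ I, Real.negMulLog (n i / N) + ∑ j ∈ I, Real.negMulLog (m j / M)) =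
        M * (N * Real.log N - ∑ i ∈ I, n i * Real.log (n i)) +
          N * (M * Real.log M - ∑ j ∈ I, m j * Real.log (m j)) := by
      have a1 : N * ∑ i ∈ I, Real.negMulLog (n i / N) =
          N * Real.log N - ∑ i ∈ I, n i * Real.log (n i) := by
        rw [mul_sum, sum_congr rfl fun i _ => KEY.ent (n i) N (hn0 i) hN0, sum_sub_distrib,
          ← sum_mul, hn]
      have a2 : M * ∑ i ∈ I, Real.negMulLog (m i / M) =
          M * Real.log M - ∑ i ∈ I, m i * Real.log (m i) := by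
        rw [mul_sum, sum_congr rfl fun i _ => KEY.ent (m i) M (hm0 i) hM0, sum_sub_distrib,
          ← sum_mul, hm]
      rw [← a1, ← a2]
      ring
    have e5 : N * M * (lam p * ∑ i ∈ I, ∑ j ∈ I, n i / N * (m j / M) * |(i : ℝ) - j| + c p) =
        lam p * ∑ i ∈ I, ∑ j ∈ I, n i * m j * |(i : ℝ) - j| + N * M * c p := by
      have a3 : N * M * ∑ i ∈ I, ∑ j ∈ I, n i / N * (m j / M) * |(i : ℝ) - j| =
          ∑ i ∈ I, ∑ j ∈ I, n i * m j * |(i : ℝ) - j| := by
        rw [mul_sum]
        refine sum_congr rfl fun i _ => ?_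
        rw [mul_sum]
        refine sum_congr rfl fun j _ => ?_
        field_simp
      rw [← a3]
      ring
    have h4 : N * M * (∑ i ∈ I, Real.negMulLog (n i / N) + ∑ j ∈ I, Real.negMulLog (m j / M)) ≤
        N * M * (lam p * ∑ i ∈ I, ∑ j ∈ I, n i / N * (m j / M) * |(i : ℝ) - j| + c p) := h3
    rw [e4, e5] at h4
    have e6 : ∑ a ∈ A, ∑ b ∈ B, ∑ q ∈ insert p S, lam q * |(v q a : ℝ) - v q b| =
        lam p * ∑ i ∈ I, ∑ j ∈ I, n i * m j * |(i : ℝ) - j| +
          ∑ a ∈ A, ∑ b ∈ B, ∑ q ∈ S, lam q * |(v q a : ℝ) - v q b| := by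
      have a4 := hG (fun x y => lam p * |(x : ℝ) - y|)
      have a5 : ∑ i ∈ I, ∑ j ∈ I, n i * m j * (lam p * |(i : ℝ) - j|) =
          lam p * ∑ i ∈ I, ∑ j ∈ I, n i * m j * |(i : ℝ) - j| := by
        rw [mul_sum]
        refine sum_congr rfl fun i _ => ?_
        rw [mul_sum]
        exact sum_congr rfl fun j _ => by ring
      rw [← a5, ← a4, ← sum_add_distrib]
      refine sum_congr rfl fun a _ => ?_
      rw [← sum_add_distrib]
      exact sum_congr rfl fun b _ => sum_insert hp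
    rw [← hN, ← hM, e6, sum_insert hp, ← hCs]
    linarith

end Pool.Agent.T2h8.GG
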