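import Pool.Agent.T2h8.GG.Stm

/-! Project GG (owner helper8), task LOG. -/

set_option autoImplicit false

namespace Pool.Agent.T2h8.GG

open Finset

namespace LOGaux

theorem sum_log {n M : ℕ} (hn : 0 < n) (hM : n ≤ M) :
    ∑ p ∈ (Finset.Icc 1 M).filter Nat.Prime, Real.log p * (n.factorization p : ℝ) ≤ Real.log M := by
  have h1 : Real.log n =
      ∑ p ∈ (Finset.Icc 1 M).filter Nat.Prime, (n.factorization p : ℝ) * Real.log p := by
    rw [Real.log_nat_eq_sum_factorization]
    refine Finsupp.sum_of_support_subset _ ?_ _ ?_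
    · intro p hp
      rw [Nat.support_factorization] at hp
      have hp1 := Nat.prime_of_mem_primeFactors hp
      have hp2 := Nat.le_of_mem_primeFactors hp
      exact Finset.mem_filter.2 ⟨Finset.mem_Icc.2 ⟨hp1.one_lt.le, hp2.trans hM⟩, hp1⟩
    · intro p _
      simp
  have h2 : ∑ p ∈ (Finset.Icc 1 M).filter Nat.Prime, Real.log p * (n.factorization p : ℝ) =
      Real.log n := by
    rw [h1]
    exact Finset.sum_congr rfl fun p _ => mul_comm _ _
  rw [h2]
  exact Real.log_le_log (by exact_mod_cast hn) (by exact_mod_cast hM)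

end LOGaux

theorem t_LOG : S_LOG := by
  intro a b M ha hb haM hbM
  obtain ⟨g, hg⟩ : ∃ g, g = Nat.gcd a b := ⟨_, rfl⟩
  rw [← hg] at haM hbM
  have hg0 : 0 < g := by
    rw [hg]
    exact Nat.gcd_pos_of_pos_left b ha
  obtain ⟨a', ha'⟩ : g ∣ a := by
    rw [hg]
    exact Nat.gcd_dvd_left a b
  obtain ⟨b', hb'⟩ : g ∣ b := by
    rw [hg]
    exact Nat.gcd_dvd_right a b
  have e1 : a / g = a' := by
    rw [ha']
    exact Nat.mul_div_cancel_left a' hg0
  have e2 : b / g = b' := by
    rw [hb']
    exact Nat.mul_div_cancel_left b' hg0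
  rw [e1] at haM
  rw [e2] at hbM
  have ha0 : 0 < a' := by
    rcases Nat.eq_zero_or_pos a' with h | h
    · rw [h, mul_zero] at ha'
      omega
    · exact h
  have hb0 : 0 < b' := by
    rcases Nat.eq_zero_or_pos b' with h | h
    · rw [h, mul_zero] at hb'
      omega
    · exact h
  have hfa : ∀ p, a.factorization p = g.factorization p + a'.factorization p := fun p => by
    rw [ha', Nat.factorization_mul hg0.ne' ha0.ne']
    rfl
  have hfb : ∀ p, b.factorization p = g.factorization p + b'.factorization p := fun p => by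
    rw [hb', Nat.factorization_mul hg0.ne' hb0.ne']
    rfl
  have h1 := LOGaux.sum_log ha0 haM
  have h2 := LOGaux.sum_log hb0 hbM
  calc ∑ p ∈ (Finset.Icc 1 M).filter Nat.Prime,
        Real.log p * |(a.factorization p : ℝ) - b.factorization p|
      ≤ ∑ p ∈ (Finset.Icc 1 M).filter Nat.Prime,
        (Real.log p * (a'.factorization p : ℝ) + Real.log p * (b'.factorization p : ℝ)) := by
        refine Finset.sum_le_sum fun p hp => ?_
        have hp0 : 0 ≤ Real.log (p : ℝ) := Real.log_natCast_nonneg p
        rw [← mul_add]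
        refine mul_le_mul_of_nonneg_left ?_ hp0
        rw [hfa, hfb]
        push_cast
        have h3 : (0 : ℝ) ≤ (a'.factorization p : ℝ) := Nat.cast_nonneg _
        have h4 : (0 : ℝ) ≤ (b'.factorization p : ℝ) := Nat.cast_nonneg _
        rw [abs_le]
        constructor <;> linarith
    _ = ∑ p ∈ (Finset.Icc 1 M).filter Nat.Prime, Real.log p * (a'.factorization p : ℝ) +
        ∑ p ∈ (Finset.Icc 1 M).filter Nat.Prime, Real.log p * (b'.factorization p : ℝ) :=
        Finset.sum_add_distrib
    _ ≤ Real.log M + Real.log M := add_le_add h1 h2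
    _ = 2 * Real.log M := by ring

end Pool.Agent.T2h8.GG
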