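import Pool.Agent.T2h8.GG.Stm

set_option autoImplicit false

namespace Pool.Agent.T2h8.GG

open Finset

theorem t_MAIN (h_KEY : S_KEY) (h_ONE : S_ONE) (h_VAL : S_VAL) (h_LOG : S_LOG) (h_SUM : S_SUM) :
    S_MAIN := by
  obtain ⟨C, hC⟩ := h_SUM
  refine ⟨Real.exp C, (Real.exp_pos C).le, ?_⟩
  intro A B hA hB M hM
  rcases A.eq_empty_or_nonempty with rfl | ⟨a0, ha0⟩
  · simp only [card_empty, Nat.cast_zero, zero_mul]
    have : 0 ≤ Real.log ((M : ℝ) + 2) := Real.log_nonneg (by linarith [Nat.cast_nonneg (α := ℝ) M])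
    positivity
  rcases B.eq_empty_or_nonempty with rfl | ⟨b0, hb0⟩
  · simp only [card_empty, Nat.cast_zero, mul_zero]
    have : 0 ≤ Real.log ((M : ℝ) + 2) := Real.log_nonneg (by linarith [Nat.cast_nonneg (α := ℝ) M])
    positivity
  have hM1 : 1 ≤ M := by
    have h1 := (hM a0 ha0 b0 hb0).1
    have h2 : 0 < a0 / Nat.gcd a0 b0 :=
      Nat.div_pos (Nat.le_of_dvd (hA a0 ha0) (Nat.gcd_dvd_left _ _))
        (Nat.gcd_pos_of_pos_left _ (hA a0 ha0))
    omega
  set S := (Finset.Icc 1 M).filter Nat.Prime with hS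
  have hone : ∀ p ∈ S, OneDim (Real.log p) (cp p) := by
    intro p hp
    exact h_ONE p (Finset.mem_filter.1 hp).2.two_le
  have hmemS : ∀ p : ℕ, p.Prime → p ≤ M → p ∈ S := by
    intro p hp hpM
    exact Finset.mem_filter.2 ⟨Finset.mem_Icc.2 ⟨hp.one_lt.le, hpM⟩, hp⟩
  have hinjA : ∀ a ∈ A, ∀ a' ∈ A, (∀ p ∈ S, a.factorization p = a'.factorization p) → a = a' := by
    intro a ha a' ha' h
    refine Nat.eq_of_factorization_eq (hA a ha).ne' (hA a' ha').ne' ?_
    intro p
    by_cases hp : p.Prime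
    · by_cases hpM : p ≤ M
      · exact h p (hmemS p hp hpM)
      · rw [h_VAL a b0 M p (hA a ha) (hB b0 hb0) (hM a ha b0 hb0).1 (hM a ha b0 hb0).2 hp (by omega),
          h_VAL a' b0 M p (hA a' ha') (hB b0 hb0) (hM a' ha' b0 hb0).1 (hM a' ha' b0 hb0).2 hp
            (by omega)]
    · rw [Nat.factorization_eq_zero_of_not_prime _ hp, Nat.factorization_eq_zero_of_not_prime _ hp]
  have hinjB : ∀ a ∈ B, ∀ a' ∈ B, (∀ p ∈ S, a.factorization p = a'.factorization p) → a = a' := by
    intro a ha a' ha' h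
    refine Nat.eq_of_factorization_eq (hB a ha).ne' (hB a' ha').ne' ?_
    intro p
    by_cases hp : p.Prime
    · by_cases hpM : p ≤ M
      · exact h p (hmemS p hp hpM)
      · rw [← h_VAL a0 a M p (hA a0 ha0) (hB a ha) (hM a0 ha0 a ha).1 (hM a0 ha0 a ha).2 hp
            (by omega),
          ← h_VAL a0 a' M p (hA a0 ha0) (hB a' ha') (hM a0 ha0 a' ha').1 (hM a0 ha0 a' ha').2 hp
            (by omega)]
    · rw [Nat.factorization_eq_zero_of_not_prime _ hp, Nat.factorization_eq_zero_of_not_prime _ hp]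
  have key := h_KEY S (fun p a => a.factorization p) (fun p => Real.log p) cp hone A B hinjA hinjB
  have hNA : (0 : ℝ) < A.card := by exact_mod_cast Finset.card_pos.2 ⟨a0, ha0⟩
  have hNB : (0 : ℝ) < B.card := by exact_mod_cast Finset.card_pos.2 ⟨b0, hb0⟩
  have hT : ∑ a ∈ A, ∑ b ∈ B, ∑ p ∈ S, Real.log p *
      |(a.factorization p : ℝ) - b.factorization p| ≤ (A.card : ℝ) * B.card * (2 * Real.log M) := by
    calc ∑ a ∈ A, ∑ b ∈ B, ∑ p ∈ S, Real.log p * |(a.factorization p : ℝ) - b.factorization p|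
        ≤ ∑ a ∈ A, ∑ b ∈ B, 2 * Real.log M := by
          refine Finset.sum_le_sum fun a ha => Finset.sum_le_sum fun b hb => ?_
          exact h_LOG a b M (hA a ha) (hB b hb) (hM a ha b hb).1 (hM a ha b hb).2
      _ = (A.card : ℝ) * B.card * (2 * Real.log M) := by
          simp only [Finset.sum_const, nsmul_eq_mul]
          ring
  have hsum := hC M
  have hNN : (0 : ℝ) < (A.card : ℝ) * B.card := mul_pos hNA hNB
  have h1 : (A.card : ℝ) * B.card * (Real.log A.card + Real.log B.card) ≤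
      (A.card : ℝ) * B.card * (2 * Real.log M + (5 * Real.log (Real.log ((M : ℝ) + 2)) + C)) := by
    have h2 : (A.card : ℝ) * B.card * ∑ p ∈ S, cp p ≤
        (A.card : ℝ) * B.card * (5 * Real.log (Real.log ((M : ℝ) + 2)) + C) :=
      mul_le_mul_of_nonneg_left hsum hNN.le
    have h3 := key
    nlinarith [h3, hT, h2]
  have h2 : Real.log A.card + Real.log B.card ≤
      2 * Real.log M + (5 * Real.log (Real.log ((M : ℝ) + 2)) + C) := le_of_mul_le_mul_left h1 hNN
  have hMpos : (0 : ℝ) < M := by exact_mod_cast hM1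
  have hlog : 0 < Real.log ((M : ℝ) + 2) := Real.log_pos (by linarith)
  have h3 : Real.log ((A.card : ℝ) * B.card) ≤
      Real.log (Real.exp C * (M : ℝ) ^ 2 * Real.log ((M : ℝ) + 2) ^ 5) := by
    rw [Real.log_mul hNA.ne' hNB.ne', Real.log_mul (by positivity) (by positivity),
      Real.log_mul (by positivity) (by positivity), Real.log_exp, Real.log_pow, Real.log_pow]
    push_cast
    linarith
  exact (Real.log_le_log_iff hNN (by positivity)).1 h3

end Pool.Agent.T2h8.GG
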