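import Pool.Agent.T2h8.GG.Stm

set_option autoImplicit false

namespace Pool.Agent.T2h8.GG

open Finset

namespace ONE

theorem small {p : ℕ} (hp : 2 ≤ p) (h_ONEA : S_ONEA) : OneDim (Real.log p) 10 := by
  have hp0 : (0 : ℝ) < p := by positivity
  have hp2 : (2 : ℝ) ≤ p := by exact_mod_cast hp
  have hlog : 0 < Real.log p := Real.log_pos (by linarith)
  have h := h_ONEA (Real.log p / 2) (by positivity)
  intro I x y hx hy sx sy
  have h1 := h I x y hx hy sx sy
  have e1 : 2 * (Real.log p / 2) = Real.log p := by ring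
  rw [e1] at h1
  obtain ⟨t, ht⟩ : ∃ t, t = Real.exp (-(Real.log p / 2)) := ⟨_, rfl⟩
  have ht0 : 0 < t := by rw [ht]; exact Real.exp_pos _
  have ht2 : t ^ 2 = 1 / p := by
    rw [ht, ← Real.exp_nat_mul]
    have : ((2 : ℕ) : ℝ) * -(Real.log p / 2) = -Real.log p := by push_cast; ring
    rw [this, Real.exp_neg, Real.exp_log hp0, one_div]
  have ht3 : t ^ 2 ≤ 1 / 2 := by
    rw [ht2]
    exact one_div_le_one_div_of_le (by norm_num) hp2
  have ht4 : t ≤ 5 / 7 := by
    by_contra hc
    push Not at hc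
    nlinarith
  have h5 : 4 * t / (1 - t) ≤ 10 := by
    rw [div_le_iff₀ (by linarith)]
    linarith
  rw [← ht] at h1
  linarith

end ONE

theorem t_ONE (h_ONEA : S_ONEA) (h_ONEB : S_ONEB) : S_ONE := by
  intro p hp
  have hp0 : (0 : ℝ) < p := by positivity
  have hp2 : (2 : ℝ) ≤ p := by exact_mod_cast hp
  have hlog : 0 < Real.log p := Real.log_pos (by linarith)
  have hc0 : 0 ≤ 5 / ((p : ℝ) - 1) := div_nonneg (by norm_num) (by linarith)
  by_cases hlt : p < 2 ^ 24
  · intro I x y hx hy sx sy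
    have h1 := ONE.small hp h_ONEA I x y hx hy sx sy
    unfold cp
    rw [if_pos hlt]
    linarith
  · intro I x y hx hy sx sy
    push Not at hlt
    have hbig : (2 : ℝ) ^ 24 ≤ p := by exact_mod_cast hlt
    unfold cp
    rw [if_neg (by omega), add_zero]
    have hne : I.Nonempty := by
      rw [Finset.nonempty_iff_ne_empty]
      rintro rfl
      simp at sx
    obtain ⟨m, hm, hmin⟩ := Finset.exists_min_image I (fun i => ∑ j ∈ I, y j * |(i : ℝ) - j|) hne
    obtain ⟨d, hd⟩ : ∃ d, d = ∑ j ∈ I, y j * |(m : ℝ) - j| := ⟨_, rfl⟩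
    obtain ⟨D, hD⟩ : ∃ D, D = ∑ i ∈ I, ∑ j ∈ I, x i * y j * |(i : ℝ) - j| := ⟨_, rfl⟩
    have hdD : d ≤ D := by
      have h1 : D = ∑ i ∈ I, x i * ∑ j ∈ I, y j * |(i : ℝ) - j| := by
        rw [hD]
        refine Finset.sum_congr rfl fun i _ => ?_
        rw [Finset.mul_sum]
        exact Finset.sum_congr rfl fun j _ => by ring
      have h2 : d = ∑ i ∈ I, x i * d := by rw [← Finset.sum_mul, sx, one_mul]
      rw [h1, h2]
      refine Finset.sum_le_sum fun i hi => mul_le_mul_of_nonneg_left ?_ (hx i)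
      rw [hd]
      exact hmin i hi
    rw [← hD]
    by_cases hexp : Real.exp (2 * Real.log p * d) ≤ 3 / 2
    · have h1 := h_ONEB (Real.log p) hlog I x y m hx hy sx sy
      rw [← hD, ← hd, Real.exp_neg, Real.exp_log hp0] at h1
      have e1 : 2 * (p : ℝ)⁻¹ / (1 - (p : ℝ)⁻¹) = 2 / ((p : ℝ) - 1) := by
        have h3 : (p : ℝ) - 1 ≠ 0 := by linarith
        have h4 : 1 - (p : ℝ)⁻¹ ≠ 0 := by
          have : (p : ℝ)⁻¹ < 1 := inv_lt_one_of_one_lt₀ (by linarith)
          linarith
        rw [div_eq_div_iff h4 h3]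
        field_simp
      rw [e1] at h1
      have h2 : 2 / ((p : ℝ) - 1) * (1 + Real.exp (2 * Real.log p * d)) ≤ 5 / ((p : ℝ) - 1) := by
        have h3 : 2 / ((p : ℝ) - 1) * (1 + Real.exp (2 * Real.log p * d)) ≤
            2 / ((p : ℝ) - 1) * (1 + 3 / 2) :=
          mul_le_mul_of_nonneg_left (by linarith) (div_nonneg (by norm_num) (by linarith))
        have h4 : 2 / ((p : ℝ) - 1) * (1 + 3 / 2) = 5 / ((p : ℝ) - 1) := by ring
        linarith
      linarith
    · push Not at hexp
      have hd2 : 2 / 5 < 2 * Real.log p * d := by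
        by_contra hc
        push Not at hc
        have h1 : Real.exp (2 * Real.log p * d) ≤ Real.exp (2 / 5) := Real.exp_le_exp.2 hc
        have h2 : (3 / 2 : ℝ) < Real.exp (2 / 5) := lt_of_lt_of_le hexp h1
        have h3 : Real.exp (2 / 5) ^ 5 = Real.exp 1 ^ 2 := by
          rw [← Real.exp_nat_mul, ← Real.exp_nat_mul]
          congr 1
          norm_num
        have h4 : (3 / 2 : ℝ) ^ 5 < Real.exp (2 / 5) ^ 5 := pow_lt_pow_left₀ h2 (by norm_num) (by norm_num)
        have h5 := Real.exp_one_lt_d9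
        have h6 : Real.exp 1 ^ 2 < 2.7182818286 ^ 2 :=
          pow_lt_pow_left₀ h5 (Real.exp_pos 1).le (by norm_num)
        rw [h3] at h4
        have h7 := h4.trans h6
        norm_num at h7
      have h1 := h_ONEA (Real.log p / 4) (by positivity) I x y hx hy sx sy
      rw [← hD] at h1
      obtain ⟨t, ht⟩ : ∃ t, t = Real.exp (-(Real.log p / 4)) := ⟨_, rfl⟩
      rw [← ht] at h1
      have ht0 : 0 < t := by rw [ht]; exact Real.exp_pos _
      have ht4 : t ^ 4 = 1 / p := by
        rw [ht, ← Real.exp_nat_mul]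
        have : ((4 : ℕ) : ℝ) * -(Real.log p / 4) = -Real.log p := by push_cast; ring
        rw [this, Real.exp_neg, Real.exp_log hp0, one_div]
      have ht5 : t ^ 4 ≤ (1 / 64) ^ 4 := by
        rw [ht4]
        have h2 := one_div_le_one_div_of_le (show (0 : ℝ) < 2 ^ 24 by positivity) hbig
        norm_num at h2 ⊢
        exact h2
      have ht6 : t ≤ 1 / 64 := le_of_pow_le_pow_left₀ (by norm_num) (by norm_num) ht5
      have h5 : 4 * t / (1 - t) ≤ 1 / 10 := by
        rw [div_le_iff₀ (by linarith)]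
        linarith
      have h6 : Real.log p * d ≤ Real.log p * D := mul_le_mul_of_nonneg_left hdD hlog.le
      have e2 : 2 * (Real.log p / 4) * D = Real.log p * D / 2 := by ring
      rw [e2] at h1
      linarith

end Pool.Agent.T2h8.GG
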