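import Pool.Agent.T2h8.GG.Stm

/-!
# ONEB (helper5)
-/

set_option autoImplicit false

namespace Pool.Agent.T2h8.GG

open Finset

theorem t_ONEB (h_GIB : S_GIB) (h_GEO : S_GEO) : S_ONEB := by
  intro L hL I x y m hx hy hx1 hy1
  set t : ℝ := Real.exp (-L) with ht
  have ht0 : 0 < t := Real.exp_pos _
  have ht1 : t < 1 := by
    rw [ht, ← Real.exp_zero]
    exact Real.exp_lt_exp.2 (by linarith)
  set G : ℝ := 2 * t / (1 - t) with hG
  have hG0 : 0 ≤ G := by
    have : 0 < 1 - t := by linarith
    positivity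
  have hgeo := h_GEO I m L hL
  -- the sum of all terms
  have hsplit : ∀ f : ℕ → ℝ, (∀ i, 0 ≤ f i) →
      ∑ i ∈ I, f i ≤ f m + ∑ i ∈ I.filter (fun i => i ≠ m), f i := by
    intro f hf
    by_cases hm : m ∈ I
    · rw [← Finset.add_sum_erase I f hm]
      have e : I.filter (fun i => i ≠ m) = I.erase m := by
        ext i
        simp only [Finset.mem_filter, Finset.mem_erase]
        tauto
      rw [e]
    · have e : I.filter (fun i => i ≠ m) = I := by
        apply Finset.filter_true_of_mem
        rintro i hi rfl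
        exact hm hi
      rw [e]
      linarith [hf m]
  set d : ℝ := ∑ j ∈ I, y j * |(m : ℝ) - j| with hd
  have hd0 : 0 ≤ d := Finset.sum_nonneg fun j _ => mul_nonneg (hy j) (abs_nonneg _)
  have hne : I.Nonempty := by
    rcases I.eq_empty_or_nonempty with h | h
    · rw [h] at hx1
      simp at hx1
    · exact h
  -- the bound for `y`
  have hY : ∑ i ∈ I, Real.negMulLog (y i) ≤ L * d + G := by
    have h1 := h_GIB I y (fun j => L * |(j : ℝ) - m|) hy hy1
    have h2 : ∑ j ∈ I, y j * (L * |(j : ℝ) - m|) = L * d := by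
      rw [hd, Finset.mul_sum]
      refine Finset.sum_congr rfl fun j _ => ?_
      rw [abs_sub_comm]
      ring
    have h3 : ∑ j ∈ I, Real.exp (-(L * |(j : ℝ) - m|)) ≤ 1 + G := by
      refine (hsplit _ fun i => (Real.exp_pos _).le).trans ?_
      have e : Real.exp (-(L * |(m : ℝ) - m|)) = 1 := by simp
      rw [e]
      linarith
    have h4 : 0 < ∑ j ∈ I, Real.exp (-(L * |(j : ℝ) - m|)) :=
      Finset.sum_pos (fun i _ => Real.exp_pos _) hne
    have h5 : Real.log (∑ j ∈ I, Real.exp (-(L * |(j : ℝ) - m|))) ≤ G := by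
      have := Real.log_le_sub_one_of_pos h4
      linarith
    rw [h2] at h1
    linarith
  -- the bound for `x`
  set g : ℕ → ℝ := fun i => ∑ j ∈ I, y j * |(i : ℝ) - j| with hg
  have hX : ∑ i ∈ I, Real.negMulLog (x i) ≤
      L * ∑ i ∈ I, ∑ j ∈ I, x i * y j * |(i : ℝ) - j| + (-(L * d) + Real.exp (2 * L * d) * G) := by
    have h1 := h_GIB I x (fun i => L * g i) hx hx1
    have h2 : ∑ i ∈ I, x i * (L * g i) = L * ∑ i ∈ I, ∑ j ∈ I, x i * y j * |(i : ℝ) - j| := by
      rw [Finset.mul_sum]
      refine Finset.sum_congr rfl fun i _ => ?_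
      rw [hg]
      simp only [Finset.mul_sum]
      refine Finset.sum_congr rfl fun j _ => ?_
      ring
    have hgi : ∀ i : ℕ, |(i : ℝ) - m| - d ≤ g i := by
      intro i
      have e : |(i : ℝ) - m| = ∑ j ∈ I, y j * |(i : ℝ) - m| := by
        rw [← Finset.sum_mul, hy1, one_mul]
      rw [e, hd, hg, ← Finset.sum_sub_distrib]
      refine Finset.sum_le_sum fun j _ => ?_
      have h6 : |(i : ℝ) - m| ≤ |(i : ℝ) - j| + |(m : ℝ) - j| := by
        have h7 := abs_sub_le (i : ℝ) j m
        rw [abs_sub_comm (j : ℝ) m] at h7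
        exact h7
      nlinarith [hy j, mul_le_mul_of_nonneg_left h6 (hy j)]
    have h3 : ∑ i ∈ I, Real.exp (-(L * g i)) ≤ Real.exp (-(L * d)) + Real.exp (L * d) * G := by
      refine (hsplit _ fun i => (Real.exp_pos _).le).trans ?_
      have e : g m = d := rfl
      rw [e]
      have h8 : ∑ i ∈ I.filter (fun i => i ≠ m), Real.exp (-(L * g i)) ≤ Real.exp (L * d) * G := by
        refine le_trans ?_ (mul_le_mul_of_nonneg_left hgeo (Real.exp_pos _).le)
        rw [Finset.mul_sum]
        refine Finset.sum_le_sum fun i _ => ?_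
        rw [← Real.exp_add]
        apply Real.exp_le_exp.2
        nlinarith [mul_le_mul_of_nonneg_left (hgi i) hL.le]
      linarith
    have h4 : 0 < ∑ i ∈ I, Real.exp (-(L * g i)) :=
      Finset.sum_pos (fun i _ => Real.exp_pos _) hne
    have h5 : Real.log (∑ i ∈ I, Real.exp (-(L * g i))) ≤ -(L * d) + Real.exp (2 * L * d) * G := by
      have h9 : Real.exp (-(L * d)) + Real.exp (L * d) * G =
          Real.exp (-(L * d)) * (1 + Real.exp (2 * L * d) * G) := by
        have e1 : Real.exp (L * d) = Real.exp (-(L * d)) * Real.exp (2 * L * d) := by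
          rw [← Real.exp_add]
          congr 1
          ring
        rw [e1]
        ring
      have hp : 0 < 1 + Real.exp (2 * L * d) * G := by positivity
      refine (Real.log_le_log h4 h3).trans ?_
      rw [h9, Real.log_mul (Real.exp_pos _).ne' hp.ne', Real.log_exp]
      have := Real.log_le_sub_one_of_pos hp
      linarith
    rw [h2] at h1
    linarith
  have e : 2 * Real.exp (-L) / (1 - Real.exp (-L)) * (1 + Real.exp (2 * L * d)) = G + Real.exp (2 * L * d) * G := by
    rw [hG, ht]
    ring
  rw [e]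
  linarith

end Pool.Agent.T2h8.GG
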