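import Pool.Agent.T2h8.GG.Stm
import Pool.Agent.Erdos456.Mertens

/-!
# The sum of the constants of the primes (helper21)
-/

set_option autoImplicit false

namespace Pool.Agent.T2h8.GG

open Finset

namespace SUM21

lemma ind_le (K : ℕ) (S : Finset ℕ) : ∑ p ∈ S, (if p < K then (10 : ℝ) else 0) ≤ 10 * K := by
  rw [← Finset.sum_filter, Finset.sum_const, nsmul_eq_mul]
  have h1 : (S.filter (fun p => p < K)).card ≤ K := by
    have h : S.filter (fun p => p < K) ⊆ Finset.range K := fun p hp =>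
      Finset.mem_range.2 (Finset.mem_filter.1 hp).2
    exact (Finset.card_le_card h).trans (Finset.card_range K).le
  have h2 : ((S.filter (fun p => p < K)).card : ℝ) ≤ K := by exact_mod_cast h1
  linarith

lemma term_le (p : ℕ) (hp : p.Prime) : 5 / ((p : ℝ) - 1) ≤ 5 * (1 / (p : ℝ)) + 10 * (1 / (p : ℝ) ^ 2) := by
  have h2 : (2 : ℝ) ≤ p := by exact_mod_cast hp.two_le
  have h0 : (0 : ℝ) < p := by linarith
  have h1 : (0 : ℝ) < (p : ℝ) - 1 := by linarith
  rw [div_le_iff₀ h1]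
  have e : (5 * (1 / (p : ℝ)) + 10 * (1 / (p : ℝ) ^ 2)) * ((p : ℝ) - 1) - 5 = (5 * p - 10) / (p : ℝ) ^ 2 := by
    field_simp
    ring
  have h3 : 0 ≤ (5 * (p : ℝ) - 10) / (p : ℝ) ^ 2 := div_nonneg (by linarith) (by positivity)
  linarith

end SUM21

theorem t_SUM : S_SUM := by
  obtain ⟨C0, hC0⟩ := Pool.Agent.Erdos456.Mert.mertens_inv
  have hC : 0 ≤ C0 := (abs_nonneg _).trans (hC0 3 le_rfl)
  have hs : Summable (fun n : ℕ => 1 / (n : ℝ) ^ 2) := Real.summable_one_div_nat_pow.2 (by norm_num)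
  obtain ⟨T, hT⟩ : ∃ T : ℝ, T = ∑' n : ℕ, 1 / (n : ℝ) ^ 2 := ⟨_, rfl⟩
  have hT0 : 0 ≤ T := by
    rw [hT]
    exact tsum_nonneg fun n => by positivity
  obtain ⟨K, hK⟩ : ∃ K : ℕ, K = 2 ^ 24 := ⟨_, rfl⟩
  have hcp : ∀ p : ℕ, cp p = 5 / ((p : ℝ) - 1) + if p < K then 10 else 0 := by
    intro p
    rw [hK]
    rfl
  have hK0 : (0 : ℝ) ≤ K := Nat.cast_nonneg K
  refine ⟨5 * C0 + 10 * T + 10 * (K : ℝ) + 5 * |Real.log (Real.log 2)|, fun M => ?_⟩
  have hab := neg_abs_le (Real.log (Real.log 2))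
  have hab0 := abs_nonneg (Real.log (Real.log 2))
  rcases Nat.eq_zero_or_pos M with rfl | hM
  · have e : (Finset.Icc 1 0).filter Nat.Prime = (∅ : Finset ℕ) := by
      simp
    rw [e, Finset.sum_empty, Nat.cast_zero, zero_add]
    linarith
  · have h1 := (abs_le.1 (hC0 (M + 2) (by omega))).2
    have hsub : (Finset.Icc 1 M).filter Nat.Prime ⊆ (Finset.Icc 1 (M + 2)).filter Nat.Prime :=
      Finset.filter_subset_filter _ (Finset.Icc_subset_Icc_right (by omega))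
    have h2 : ∑ p ∈ (Finset.Icc 1 M).filter Nat.Prime, (1 : ℝ) / p ≤
        ∑ p ∈ (Finset.Icc 1 (M + 2)).filter Nat.Prime, (1 : ℝ) / p :=
      Finset.sum_le_sum_of_subset_of_nonneg hsub fun p _ _ => by positivity
    have h3 : ∑ p ∈ (Finset.Icc 1 M).filter Nat.Prime, (1 : ℝ) / (p : ℝ) ^ 2 ≤ T := by
      rw [hT]
      exact hs.sum_le_tsum _ fun n _ => by positivity
    have h4 := SUM21.ind_le K ((Finset.Icc 1 M).filter Nat.Prime)
    have h5 : ∑ p ∈ (Finset.Icc 1 M).filter Nat.Prime, cp p ≤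
        ∑ p ∈ (Finset.Icc 1 M).filter Nat.Prime,
          ((5 * (1 / (p : ℝ)) + 10 * (1 / (p : ℝ) ^ 2)) + if p < K then (10 : ℝ) else 0) := by
      refine Finset.sum_le_sum fun p hp => ?_
      rw [hcp]
      exact add_le_add (SUM21.term_le p (Finset.mem_filter.1 hp).2) le_rfl
    rw [Finset.sum_add_distrib, Finset.sum_add_distrib, ← Finset.mul_sum, ← Finset.mul_sum] at h5
    push_cast at h1
    linarith

end Pool.Agent.T2h8.GG
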