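import Pool.Agent.T2h8.GG.Stm

/-! (VAL) (helper62) -/

set_option autoImplicit false

namespace Pool.Agent.T2h8.GG

namespace VAL

theorem fac_div (a g M p : ℕ) (ha : 0 < a) (hg : g ∣ a) (hM : a / g ≤ M) (hp : M < p) :
    a.factorization p = g.factorization p := by
  obtain ⟨c, rfl⟩ := hg
  have hg0 : 0 < g := by
    rcases Nat.eq_zero_or_pos g with h | h
    · rw [h, zero_mul] at ha
      exact absurd ha (lt_irrefl _)
    · exact h
  have hc0 : 0 < c := by
    rcases Nat.eq_zero_or_pos c with h | h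
    · rw [h, mul_zero] at ha
      exact absurd ha (lt_irrefl _)
    · exact h
  rw [Nat.mul_div_cancel_left _ hg0] at hM
  rw [Nat.factorization_mul hg0.ne' hc0.ne', Finsupp.add_apply,
    Nat.factorization_eq_zero_of_lt (lt_of_le_of_lt hM hp), add_zero]

end VAL

theorem t_VAL : S_VAL := by
  intro a b M p ha hb h1 h2 _ hp
  rw [VAL.fac_div a (Nat.gcd a b) M p ha (Nat.gcd_dvd_left a b) h1 hp,
    VAL.fac_div b (Nat.gcd a b) M p hb (Nat.gcd_dvd_right a b) h2 hp]

end Pool.Agent.T2h8.GG
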